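import Mathlib

/-!
Position function used for the lower bound on ordinal bottleneck matching.

`F K x = x + K ^ 2 - (max (K - √x) 0) ^ 2`, that is `2 K √x` for `x ≤ K ^ 2` and `x + K ^ 2` for
`K ^ 2 ≤ x`.
-/

namespace Pool.Agent.Lib.MP_b944bf_lc

/-- The position function. -/
noncomputable def F (K x : ℝ) : ℝ := x + K ^ 2 - (max (K - √x) 0) ^ 2

theorem F_lin {K x : ℝ} (_hK : 0 ≤ K) (hx : K ^ 2 ≤ x) : F K x = x + K ^ 2 := by
  have h : K ≤ √x := Real.le_sqrt_of_sq_le hx
  unfold F
  rw [max_eq_right (by linarith)]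
  ring

theorem F_sqrt {K x : ℝ} (hK : 0 ≤ K) (h0 : 0 ≤ x) (hx : x ≤ K ^ 2) : F K x = 2 * K * √x := by
  have h : √x ≤ K := by
    rw [show K = √(K ^ 2) by rw [Real.sqrt_sq hK]]
    exact Real.sqrt_le_sqrt hx
  unfold F
  rw [max_eq_left (by linarith)]
  have := Real.sq_sqrt h0
  nlinarith

theorem G_le_F {K x : ℝ} (hK : 0 ≤ K) (h0 : 0 ≤ x) : 2 * K * √x ≤ F K x := by
  rcases le_total x (K ^ 2) with h | h
  · rw [F_sqrt hK h0 h]
  · rw [F_lin hK h]
    have := Real.sq_sqrt h0
    nlinarith [sq_nonneg (K - √x)]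

theorem F_le {K x : ℝ} : F K x ≤ x + K ^ 2 := by
  unfold F
  nlinarith [sq_nonneg (max (K - √x) 0)]

/-- Gaps are at least one. -/
theorem F_sub_ge {K x y : ℝ} (hxy : x ≤ y) : y - x ≤ F K y - F K x := by
  have h1 : √x ≤ √y := Real.sqrt_le_sqrt hxy
  have h2 : max (K - √y) 0 ≤ max (K - √x) 0 := max_le_max (by linarith) le_rfl
  have h3 : 0 ≤ max (K - √y) 0 := le_max_right _ _
  have h4 : (max (K - √y) 0) ^ 2 ≤ (max (K - √x) 0) ^ 2 := by
    exact pow_le_pow_left₀ h3 h2 2
  unfold F
  linarith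

theorem F_mono {K x y : ℝ} (hxy : x ≤ y) : F K x ≤ F K y := by
  have := F_sub_ge (K := K) hxy
  linarith

/-- Supporting line at a point of the square root part. -/
theorem F_support {K s y : ℝ} (hs : 0 < s) (hsK : s ≤ K) (hy : 0 ≤ y) :
    s * F K y ≤ K * (y + s ^ 2) := by
  have hK : 0 ≤ K := hs.le.trans hsK
  rcases le_total y (K ^ 2) with h | h
  · rw [F_sqrt hK hy h]
    have h1 := Real.sq_sqrt hy
    have h2 : 2 * s * √y ≤ y + s ^ 2 := by nlinarith [sq_nonneg (√y - s)]
    nlinarith [mul_le_mul_of_nonneg_left h2 hK]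
  · rw [F_lin hK h]
    nlinarith [mul_nonneg (sub_nonneg.2 hsK) (sub_nonneg.2 h), mul_nonneg hK (sub_nonneg.2 hsK),
      mul_nonneg (mul_nonneg hK (sub_nonneg.2 hsK)) (sub_nonneg.2 hsK)]

/-- Midpoint concavity. -/
theorem F_concave {K x h : ℝ} (hK : 0 ≤ K) (h0 : 0 ≤ h) (hx : h ≤ x) :
    F K (x + h) + F K (x - h) ≤ 2 * F K x := by
  rcases le_or_gt (K ^ 2) x with hc | hc
  · rw [F_lin hK hc]
    have h1 := F_le (K := K) (x := x + h)
    have h2 := F_le (K := K) (x := x - h)
    linarith
  · have hx0 : 0 ≤ x := h0.trans hx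
    rcases hx0.eq_or_lt with hz | hz
    · subst hz
      have : h = 0 := le_antisymm hx h0
      subst this
      simp
      linarith
    · have hs : 0 < √x := Real.sqrt_pos.2 hz
      have hsK : √x ≤ K := by
        rw [show K = √(K ^ 2) by rw [Real.sqrt_sq hK]]
        exact Real.sqrt_le_sqrt hc.le
      have e := Real.sq_sqrt hz.le
      have h1 := F_support (K := K) hs hsK (y := x + h) (by linarith)
      have h2 := F_support (K := K) hs hsK (y := x - h) (by linarith)
      rw [F_sqrt hK hz.le hc.le]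
      have h3 : √x * (F K (x + h) + F K (x - h)) ≤ √x * (2 * (2 * K * √x)) := by
        have : √x * (2 * (2 * K * √x)) = 4 * K * (√x) ^ 2 := by ring
        rw [this]
        nlinarith
      exact le_of_mul_le_mul_left h3 hs

/-- The key slow variation estimate. -/
theorem F_slow {K i h : ℝ} (hK : 0 ≤ K) (h0 : 0 ≤ h) (hi : h ≤ i) :
    K ≤ F K (i + h + 1) - F K i ∨ 2 * F K i ≤ F K (i - h) + F K (i + h + 1) := by
  have hi0 : 0 ≤ i := h0.trans hi
  rcases le_or_gt i (K ^ 2) with hc | hc
  · have e1 := G_le_F (K := K) (x := i + h + 1) hK (by linarith)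
    have e2 := F_sqrt hK hi0 hc
    have e3 := G_le_F (K := K) (x := i - h) hK (by linarith)
    rcases le_or_gt (√i + 1 / 2) (√(i + h + 1)) with hd | hd
    · left
      rw [e2]
      nlinarith
    · right
      rw [e2]
      have s1 := Real.sq_sqrt hi0
      have s2 := Real.sq_sqrt (show 0 ≤ i + h + 1 by linarith)
      have s3 := Real.sq_sqrt (show 0 ≤ i - h by linarith)
      have n1 := Real.sqrt_nonneg i
      have n2 := Real.sqrt_nonneg (i + h + 1)
      have n3 := Real.sqrt_nonneg (i - h)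
      have k1 : h + 3 / 4 < √i := by nlinarith
      have k2 : (h + 3 / 4) ^ 2 < i := by nlinarith
      have k3 : (i - 1 / 2) ^ 2 ≤ (i - h) * (i + h + 1) := by nlinarith
      have k4 : i - 1 / 2 ≤ √(i - h) * √(i + h + 1) := by
        rw [← Real.sqrt_mul (by linarith)]
        exact Real.le_sqrt_of_sq_le k3
      have k5 : (2 * √i) ^ 2 ≤ (√(i - h) + √(i + h + 1)) ^ 2 := by nlinarith
      have k6 : 2 * √i ≤ √(i - h) + √(i + h + 1) :=
        le_of_sq_le_sq k5 (by positivity)
      nlinarith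
  · rcases le_or_gt K (h + 1) with hd | hd
    · left
      have := F_sub_ge (K := K) (x := i) (y := i + h + 1) (by linarith)
      linarith
    · right
      rw [F_lin hK hc.le, F_lin hK (show K ^ 2 ≤ i + h + 1 by linarith)]
      rcases le_or_gt (K ^ 2) (i - h) with he | he
      · rw [F_lin hK he]
        linarith
      · rw [F_sqrt hK (by linarith) he.le]
        have s3 := Real.sq_sqrt (show 0 ≤ i - h by linarith)
        have n3 := Real.sqrt_nonneg (i - h)
        have hK1 : 1 ≤ K := by linarith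
        have k1 : (K - 1) ^ 2 ≤ i - h := by nlinarith
        have k2 : K - 1 ≤ √(i - h) := Real.le_sqrt_of_sq_le k1
        have k3 : √(i - h) ≤ K := by
          rw [show K = √(K ^ 2) by rw [Real.sqrt_sq hK]]
          exact Real.sqrt_le_sqrt he.le
        nlinarith

/-- Items ranked after `b*` by an agent close to the end are at distance at least `K`. -/
theorem F_double {K l : ℝ} (hK : 0 ≤ K) (h0 : 0 ≤ l) (hl : l ≤ K ^ 2) :
    K ≤ F K (2 * l + 1) - F K l := by
  have e1 := G_le_F (K := K) (x := 2 * l + 1) hK (by linarith)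
  have e2 := F_sqrt hK h0 hl
  have k : √l + 1 / 2 ≤ √(2 * l + 1) := by
    apply Real.le_sqrt_of_sq_le
    have s1 := Real.sq_sqrt h0
    nlinarith [sq_nonneg (√l - 1 / 2), Real.sqrt_nonneg l]
  rw [e2]
  nlinarith

/-- Truncated distances to a point of the linear part are the distances of the indices. -/
theorem F_trunc {K a b : ℝ} (hK : 0 ≤ K) (ha : K ^ 2 + K ≤ a) :
    min K |F K a - F K b| = min K |a - b| := by
  rcases le_total a b with h | h
  · rw [F_lin hK (show K ^ 2 ≤ a by linarith), F_lin hK (show K ^ 2 ≤ b by linarith)]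
    congr 2
    ring
  · rcases le_or_gt (K ^ 2) b with hb | hb
    · rw [F_lin hK (show K ^ 2 ≤ a by linarith), F_lin hK hb]
      congr 2
      ring
    · have h1 : K ≤ a - b := by linarith
      have h2 := F_sub_ge (K := K) h
      rw [min_eq_left (le_trans (by linarith) (le_abs_self (F K a - F K b))),
        min_eq_left (le_trans h1 (le_abs_self (a - b)))]

end Pool.Agent.Lib.MP_b944bf_lc
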