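import Mathlib
import Pool.Agent.Lib.MP_b944bf_lc.Profile

/-!
Comonotonicity of the two families of distances.
-/

namespace Pool.Agent.Lib.MP_b944bf_lc

/-- Position of item `j` in the right metric. -/
noncomputable def posR (K : ℝ) (n j : ℕ) : ℝ := if j = 0 then F K n else F K j

/-- Position of item `j` in the left metric. -/
noncomputable def posL (K : ℝ) (n j : ℕ) : ℝ := F K ((n : ℝ) - j)

/-- Distance from location `l` to item `j` in the right metric. -/
noncomputable def distR (K : ℝ) (n l j : ℕ) : ℝ := min K |F K l - posR K n j|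

/-- Distance from location `l` to item `j` in the left metric. -/
noncomputable def distL (K : ℝ) (n l j : ℕ) : ℝ := min K |F K ((n : ℝ) - l) - posL K n j|

theorem distL_eq {K : ℝ} {n l j : ℕ} (hK : 0 ≤ K) (hn : K ^ 2 + K ≤ (n : ℝ) / 2)
    (hl : 2 * l ≤ n) : distL K n l j = min K |(l : ℝ) - j| := by
  have h1 : (2 : ℝ) * l ≤ n := by exact_mod_cast hl
  unfold distL posL
  rw [F_trunc hK (by linarith)]
  congr 1
  rw [show (n : ℝ) - l - (n - j) = -((l : ℝ) - j) by ring, abs_neg]

theorem como_left {K : ℝ} {n l j j' : ℕ} (hK : 1 ≤ K) (hn : K ^ 2 + K ≤ (n : ℝ) / 2)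
    (hl : 2 * l ≤ n) (h : distL K n l j < distL K n l j') :
    distR K n l j ≤ distR K n l j' := by
  have hK0 : 0 ≤ K := by linarith
  have hln : (2 : ℝ) * l ≤ n := by exact_mod_cast hl
  rw [distL_eq hK0 hn hl, distL_eq hK0 hn hl] at h
  have hjK : |(l : ℝ) - j| < K := by
    by_contra hc
    rw [not_lt] at hc
    rw [min_eq_left hc] at h
    exact absurd h (not_lt.2 (min_le_left _ _))
  rw [min_eq_right hjK.le] at h
  have hlt : |(l : ℝ) - j| < |(l : ℝ) - j'| := lt_of_lt_of_le h (min_le_right _ _)
  unfold distR
  rcases Nat.eq_zero_or_pos j' with hj0' | hj0'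
  · -- `j'` is the special item
    subst hj0'
    have h1 := F_sub_ge (K := K) (x := (l : ℝ)) (y := (n : ℝ)) (by linarith)
    have h2 : K ≤ |F K l - posR K n 0| := by
      rw [abs_sub_comm]
      unfold posR
      rw [if_pos rfl]
      refine le_trans ?_ (le_abs_self _)
      nlinarith
    rw [min_eq_left h2]
    exact min_le_left _ _
  rcases Nat.eq_zero_or_pos j with hj0 | hj0
  · -- `j` is the special item
    subst hj0
    have hl0 : (0 : ℝ) ≤ l := Nat.cast_nonneg l
    rw [Nat.cast_zero, sub_zero, abs_of_nonneg hl0] at hlt hjK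
    have hj' : 2 * l + 1 ≤ j' := by
      by_contra hc
      rw [not_le] at hc
      have h3 : (j' : ℝ) ≤ 2 * l := by
        have : j' ≤ 2 * l := by omega
        exact_mod_cast this
      have h4 : |(l : ℝ) - j'| ≤ l := by
        rw [abs_le]
        have : (0 : ℝ) ≤ j' := Nat.cast_nonneg j'
        constructor <;> linarith
      linarith
    have h5 : (2 : ℝ) * l + 1 ≤ j' := by exact_mod_cast hj'
    have h6 := F_double (K := K) (l := (l : ℝ)) hK0 hl0 (by nlinarith)
    have h7 := F_mono (K := K) h5
    have h2 : K ≤ |F K l - posR K n j'| := by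
      rw [abs_sub_comm]
      unfold posR
      rw [if_neg (by omega)]
      refine le_trans ?_ (le_abs_self _)
      linarith
    rw [min_eq_left h2]
    exact min_le_left _ _
  · -- both are ordinary items
    have key : K ≤ |F K l - posR K n j'| ∨ |F K l - posR K n j| ≤ |F K l - posR K n j'| → min K |F K l - posR K n j| ≤ min K |F K l - posR K n j'| := by
      rintro (h1 | h1)
      · rw [min_eq_left h1]
        exact min_le_left _ _
      · exact min_le_min_left _ h1
    apply key
    unfold posR
    rw [if_neg (by omega), if_neg (by omega)]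
    rcases le_or_gt j l with c1 | c1 <;> rcases le_or_gt j' l with c2 | c2
    · have d1 : (j : ℝ) ≤ l := by exact_mod_cast c1
      have d2 : (j' : ℝ) ≤ l := by exact_mod_cast c2
      rw [abs_of_nonneg (by linarith), abs_of_nonneg (by linarith)] at hlt
      right
      have e1 := F_mono (K := K) d1
      have e2 := F_mono (K := K) d2
      have e3 := F_mono (K := K) (show (j' : ℝ) ≤ j by linarith)
      have a1 : |F K l - F K j| = F K l - F K j := abs_of_nonneg (by linarith)
      have a2 : |F K l - F K j'| = F K l - F K j' := abs_of_nonneg (by linarith)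
      rw [a1, a2]
      linarith
    · have d1 : (j : ℝ) ≤ l := by exact_mod_cast c1
      have d2 : (l : ℝ) < j' := by exact_mod_cast c2
      rw [abs_of_nonneg (by linarith), abs_of_neg (by linarith)] at hlt
      have d3 : l - j + 1 + l ≤ j' := by
        have : ((l - j + l : ℕ) : ℝ) < j' := by
          push_cast [Nat.cast_sub c1]
          linarith
        have : l - j + l < j' := by exact_mod_cast this
        omega
      have d4 : (l : ℝ) - j + 1 + l ≤ j' := by
        have : ((l - j + 1 + l : ℕ) : ℝ) ≤ j' := by exact_mod_cast d3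
        push_cast [Nat.cast_sub c1] at this
        linarith
      have hj0r : (0 : ℝ) ≤ j := Nat.cast_nonneg j
      have e0 := F_slow (K := K) (i := (l : ℝ)) (h := (l : ℝ) - j) hK0 (by linarith) (by linarith)
      have e1 := F_mono (K := K) d1
      have e2 := F_mono (K := K) d2.le
      have e3 := F_mono (K := K) (show (l : ℝ) + (l - j) + 1 ≤ j' by linarith)
      have a1 : |F K l - F K j| = F K l - F K j := abs_of_nonneg (by linarith)
      have a2 : |F K l - F K j'| = -(F K l - F K j') := abs_of_nonpos (by linarith)
      rw [a1, a2]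
      rcases e0 with e0 | e0
      · left
        linarith
      · right
        rw [show (l : ℝ) - (l - j) = j by ring] at e0
        linarith
    · have d1 : (l : ℝ) < j := by exact_mod_cast c1
      have d2 : (j' : ℝ) ≤ l := by exact_mod_cast c2
      rw [abs_of_neg (by linarith), abs_of_nonneg (by linarith)] at hlt
      have hj0r : (0 : ℝ) ≤ j' := Nat.cast_nonneg j'
      have e0 := F_concave (K := K) (x := (l : ℝ)) (h := (j : ℝ) - l) hK0 (by linarith)
        (by linarith)
      have e1 := F_mono (K := K) d1.le
      have e2 := F_mono (K := K) d2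
      have e3 := F_mono (K := K) (show (j' : ℝ) ≤ l - (j - l) by linarith)
      rw [show (l : ℝ) + (j - l) = j by ring] at e0
      right
      have a1 : |F K l - F K j| = -(F K l - F K j) := abs_of_nonpos (by linarith)
      have a2 : |F K l - F K j'| = F K l - F K j' := abs_of_nonneg (by linarith)
      rw [a1, a2]
      linarith
    · have d1 : (l : ℝ) < j := by exact_mod_cast c1
      have d2 : (l : ℝ) < j' := by exact_mod_cast c2
      rw [abs_of_neg (by linarith), abs_of_neg (by linarith)] at hlt
      right
      have e1 := F_mono (K := K) d1.le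
      have e2 := F_mono (K := K) d2.le
      have e3 := F_mono (K := K) (show (j : ℝ) ≤ j' by linarith)
      have a1 : |F K l - F K j| = -(F K l - F K j) := abs_of_nonpos (by linarith)
      have a2 : |F K l - F K j'| = -(F K l - F K j') := abs_of_nonpos (by linarith)
      rw [a1, a2]
      linarith

/-- Reflection of the item indices. -/
def reflItem (n j : ℕ) : ℕ := if j = 0 then 0 else n - j

theorem distR_reflItem {K : ℝ} {n l j : ℕ} (hl : l ≤ n) (hj : j ≤ n) (hjn : j ≠ n) :
    distR K n (n - l) (reflItem n j) = distL K n l j := by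
  unfold distR distL posR posL reflItem
  rw [Nat.cast_sub hl]
  rcases Nat.eq_zero_or_pos j with h | h
  · subst h
    simp
  · rw [if_neg (show ¬ j = 0 by omega), if_neg (show ¬ n - j = 0 by omega), Nat.cast_sub hj]

theorem distL_reflItem {K : ℝ} {n l j : ℕ} (hl : l ≤ n) (hj : j ≤ n) :
    distL K n (n - l) (reflItem n j) = distR K n l j := by
  unfold distR distL posR posL reflItem
  rw [Nat.cast_sub hl, sub_sub_cancel]
  rcases Nat.eq_zero_or_pos j with h | h
  · subst h
    simp
  · rw [if_neg (show ¬ j = 0 by omega), if_neg (show ¬ j = 0 by omega), Nat.cast_sub hj,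
      sub_sub_cancel]

theorem como {K : ℝ} {n l j j' : ℕ} (hK : 1 ≤ K) (hn : K ^ 2 + K ≤ (n : ℝ) / 2)
    (hl : l ≤ n) (hj : j < n) (hj' : j' < n) (h : distL K n l j < distL K n l j') :
    distR K n l j ≤ distR K n l j' := by
  rcases le_or_gt (2 * l) n with c | c
  · exact como_left hK hn c h
  · by_contra hc
    rw [not_le, ← distL_reflItem hl hj.le, ← distL_reflItem hl hj'.le] at hc
    have := como_left (l := n - l) hK hn (by omega) hc
    rw [distR_reflItem hl hj.le hj.ne, distR_reflItem hl hj'.le hj'.ne] at this
    exact absurd h (not_lt.2 this)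

theorem far {K : ℝ} {n l : ℕ} (_hK : 1 ≤ K) (hn : K ^ 2 + K ≤ (n : ℝ) / 2) (hl : l ≤ n) :
    K ≤ distL K n l 0 ∨ K ≤ distR K n l 0 := by
  have hl0 : (l : ℝ) ≤ n := by exact_mod_cast hl
  rcases le_total (2 * l) n with c | c
  · right
    have c' : (2 : ℝ) * l ≤ n := by exact_mod_cast c
    unfold distR posR
    rw [if_pos rfl]
    refine le_min le_rfl ?_
    have h1 := F_sub_ge (K := K) hl0
    rw [abs_sub_comm]
    refine le_trans ?_ (le_abs_self _)
    nlinarith
  · left
    have c' : (n : ℝ) ≤ 2 * l := by exact_mod_cast c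
    unfold distL posL
    refine le_min le_rfl ?_
    have h1 := F_sub_ge (K := K) (show (n : ℝ) - l ≤ n - (0 : ℕ) by simp)
    rw [abs_sub_comm]
    refine le_trans ?_ (le_abs_self _)
    simp only [Nat.cast_zero] at h1 ⊢
    nlinarith

end Pool.Agent.Lib.MP_b944bf_lc
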